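import Pool.Agent.H70.KK.Stm2

set_option autoImplicit false
open Finset

namespace Pool.Agent.H70.KK.AVG

theorem double_count {α β : Type} (A : Finset α) (B : Finset β) (R : α → β → Prop)
    [∀ a b, Decidable (R a b)] :
    ∑ a ∈ A, (B.filter (fun b => R a b)).card = ∑ b ∈ B, (A.filter (fun a => R a b)).card := by
  simp only [Finset.card_filter]
  exact Finset.sum_comm

theorem avg : S_AVG := by
  classical
  intro α _ E V s H C X hsym hs hV hHV hH hcore
  set Y : Finset α := V.filter (fun w => s ≤ (H.filter (fun v => w ∈ X v)).card) with hY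
  have hYcard : Y.card ≤ 264 * s := by
    have h1 : Y.card * s ≤ ∑ w ∈ Y, (H.filter (fun v => w ∈ X v)).card := by
      rw [← smul_eq_mul]
      exact Finset.card_nsmul_le_sum _ _ _ (fun w hw => (Finset.mem_filter.mp hw).2)
    have h2 := double_count Y H (fun w v => w ∈ X v)
    have h3 : ∑ v ∈ H, (Y.filter (fun w => w ∈ X v)).card ≤ H.card * (12 * s) := by
      rw [← smul_eq_mul]
      apply Finset.sum_le_card_nsmul
      intro v hv
      refine (Finset.card_le_card ?_).trans (hcore v hv).2.2.1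
      intro w hw
      exact (Finset.mem_filter.mp hw).2
    rw [hH] at h3
    have h4 : Y.card * s ≤ (264 * s) * s := by
      calc Y.card * s ≤ 22 * s * (12 * s) := by rw [h2] at h1; exact h1.trans h3
        _ = (264 * s) * s := by ring
    exact Nat.le_of_mul_le_mul_right h4 hs
  -- the vertex z
  obtain ⟨z, hzV, hz⟩ : ∃ z ∈ V, z ∉ H ∪ Y := by
    by_contra hno
    push Not at hno
    have h1 : V.card ≤ (H ∪ Y).card := Finset.card_le_card hno
    have h2 := Finset.card_union_le H Y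
    omega
  have hzH : z ∉ H := fun h => hz (Finset.mem_union_left _ h)
  have hzY : z ∉ Y := fun h => hz (Finset.mem_union_right _ h)
  have hYlt : ∀ u ∈ V, u ∉ Y → (H.filter (fun v => u ∈ X v)).card < s := by
    intro u hu huY
    by_contra h
    exact huY (Finset.mem_filter.mpr ⟨hu, not_lt.mp h⟩)
  let A : α → Finset α := fun v => (H ∪ Y ∪ (C v 0 ∪ C v 1 ∪ C v 2)).erase z
  have hCV : ∀ v ∈ H, ∀ l, C v l ⊆ V := fun v hv l =>
    ((hcore v hv).1 l).trans (Finset.erase_subset _ _)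
  have hAV : ∀ v ∈ H, A v ⊆ V.erase z := by
    intro v hv u hu
    obtain ⟨h1, h2⟩ := Finset.mem_erase.mp hu
    refine Finset.mem_erase.mpr ⟨h1, ?_⟩
    rcases Finset.mem_union.mp h2 with h3 | h3
    · rcases Finset.mem_union.mp h3 with h4 | h4
      · exact hHV h4
      · exact (Finset.mem_filter.mp h4).1
    · rcases Finset.mem_union.mp h3 with h4 | h4
      · rcases Finset.mem_union.mp h4 with h5 | h5
        · exact hCV v hv _ h5
        · exact hCV v hv _ h5
      · exact hCV v hv _ h4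
  have hAcard : ∀ v ∈ H, (A v).card ≤ 304 * s := by
    intro v hv
    have h1 := Finset.card_erase_le (s := H ∪ Y ∪ (C v 0 ∪ C v 1 ∪ C v 2)) (a := z)
    have h2 := Finset.card_union_le (H ∪ Y) (C v 0 ∪ C v 1 ∪ C v 2)
    have h3 := Finset.card_union_le H Y
    have h4 := Finset.card_union_le (C v 0 ∪ C v 1) (C v 2)
    have h5 := Finset.card_union_le (C v 0) (C v 1)
    have h6 := (hcore v hv).2.1 0
    have h7 := (hcore v hv).2.1 1
    have h8 := (hcore v hv).2.1 2
    change ((H ∪ Y ∪ (C v 0 ∪ C v 1 ∪ C v 2)).erase z).card ≤ 304 * s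
    omega
  have hHA : ∀ v, H ⊆ A v := fun v u hu => Finset.mem_erase.mpr
    ⟨fun h => hzH (h ▸ hu), Finset.mem_union_left _ (Finset.mem_union_left _ hu)⟩
  have hYA : ∀ v, Y ⊆ A v := fun v u hu => Finset.mem_erase.mpr
    ⟨fun h => hzY (h ▸ hu), Finset.mem_union_left _ (Finset.mem_union_right _ hu)⟩
  have hCA : ∀ v l u, u ∈ C v l → u ≠ z → u ∈ A v := by
    intro v l u hu huz
    refine Finset.mem_erase.mpr ⟨huz, Finset.mem_union_right _ ?_⟩
    fin_cases l
    · exact Finset.mem_union_left _ (Finset.mem_union_left _ hu)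
    · exact Finset.mem_union_left _ (Finset.mem_union_right _ hu)
    · exact Finset.mem_union_right _ hu
  by_contra hno
  push Not at hno
  have hP : ∀ v ∈ H, ∃ P : Finset α, LC E V s z P ∧ A v ⊆ P ∧ P ≠ V.erase z := by
    intro v hv
    have h1 := hno z hzV (A v) (hAV v hv) (hAcard v hv)
    unfold LPerc at h1
    push Not at h1
    exact h1
  choose! P hPL hPA hPne using hP
  let NN : α → α → Prop := fun v u => E v z u ∨ z ∈ X v ∨ u ∈ X v
  let N0 : Finset α := (V.erase z).filter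
    (fun u => u ∉ H ∧ u ∉ Y ∧ (H.filter (fun v => E v z u)).card < s)
  -- (1)
  have h1 : ∀ v ∈ H, ∀ u ∈ V.erase z, u ∉ P v → u ∈ N0 := by
    intro v hv u hu huP
    refine Finset.mem_filter.mpr ⟨hu, fun h => huP (hPA v hv (hHA v h)),
      fun h => huP (hPA v hv (hYA v h)), ?_⟩
    apply (hPL v hv).2 u hu huP
    · intro w hw
      exact hPA v hv (hHA v (Finset.mem_filter.mp hw).1)
    · intro w hw
      exact hsym.swap _ _ _ (Finset.mem_filter.mp hw).2
  -- (2)
  have h2 : ∀ u ∈ N0, (H.filter (fun v => NN v u)).card + 3 ≤ 3 * s := by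
    intro u hu
    obtain ⟨hu1, hu2, hu3, hu4⟩ := Finset.mem_filter.mp hu
    have e1 : H.filter (fun v => NN v u) = H.filter (fun v => E v z u) ∪
        (H.filter (fun v => z ∈ X v) ∪ H.filter (fun v => u ∈ X v)) := by
      rw [← Finset.filter_or, ← Finset.filter_or]
    have e2 := hYlt z hzV hzY
    have e3 := hYlt u (Finset.mem_of_mem_erase hu1) hu3
    have e4 := Finset.card_union_le (H.filter (fun v => E v z u))
      (H.filter (fun v => z ∈ X v) ∪ H.filter (fun v => u ∈ X v))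
    have e5 := Finset.card_union_le (H.filter (fun v => z ∈ X v)) (H.filter (fun v => u ∈ X v))
    rw [e1]
    omega
  -- (3)
  let M : α → ℕ := fun v' => ∑ v ∈ H, ∑ l : Fin 3,
    ((C v l).filter (fun u => u ∈ N0 ∧ NN v' u)).card
  have h3 : ∑ v' ∈ H, M v' ≤ 22 * s * (54 * s ^ 2) := by
    have e1 : ∑ v' ∈ H, M v' = ∑ v ∈ H, ∑ l : Fin 3, ∑ v' ∈ H,
        ((C v l).filter (fun u => u ∈ N0 ∧ NN v' u)).card := by
      change ∑ v' ∈ H, ∑ v ∈ H, ∑ l : Fin 3,
        ((C v l).filter (fun u => u ∈ N0 ∧ NN v' u)).card = _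
      rw [Finset.sum_comm]
      refine Finset.sum_congr rfl fun v _ => ?_
      rw [Finset.sum_comm]
    have e2 : ∀ v ∈ H, ∀ l : Fin 3, ∑ v' ∈ H,
        ((C v l).filter (fun u => u ∈ N0 ∧ NN v' u)).card ≤ 18 * s ^ 2 := by
      intro v hv l
      rw [double_count H (C v l) (fun v' u => u ∈ N0 ∧ NN v' u)]
      have e3 : ∀ u ∈ C v l, (H.filter (fun v' => u ∈ N0 ∧ NN v' u)).card ≤ 3 * s := by
        intro u _
        by_cases hu : u ∈ N0
        · have e4 := h2 u hu
          have e5 : H.filter (fun v' => u ∈ N0 ∧ NN v' u) ⊆ H.filter (fun v' => NN v' u) := by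
            intro v' hv'
            rw [Finset.mem_filter] at hv' ⊢
            exact ⟨hv'.1, hv'.2.2⟩
          have e6 := Finset.card_le_card e5
          omega
        · have e5 : H.filter (fun v' => u ∈ N0 ∧ NN v' u) = ∅ := by
            apply Finset.filter_eq_empty_iff.mpr
            intro v' _ h
            exact hu h.1
          rw [e5, Finset.card_empty]
          omega
      have e7 := Finset.sum_le_card_nsmul (C v l) _ (3 * s) e3
      rw [smul_eq_mul, (hcore v hv).2.1 l] at e7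
      refine e7.trans (le_of_eq ?_)
      ring
    rw [e1]
    have e8 : ∀ v ∈ H, ∑ l : Fin 3, ∑ v' ∈ H,
        ((C v l).filter (fun u => u ∈ N0 ∧ NN v' u)).card ≤ 54 * s ^ 2 := by
      intro v hv
      have e9 := Finset.sum_le_card_nsmul (Finset.univ : Finset (Fin 3)) _ (18 * s ^ 2)
        (fun l _ => e2 v hv l)
      rw [smul_eq_mul, Finset.card_univ, Fintype.card_fin] at e9
      omega
    have e10 := Finset.sum_le_card_nsmul H _ (54 * s ^ 2) e8
    rw [smul_eq_mul, hH] at e10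
    exact e10
  obtain ⟨v', hv', hM⟩ : ∃ v' ∈ H, M v' ≤ 54 * s ^ 2 := by
    by_contra hn
    push Not at hn
    have e1 := Finset.card_nsmul_le_sum H M (54 * s ^ 2 + 1) (fun v hv => hn v hv)
    rw [smul_eq_mul, hH] at e1
    have e2 : 22 * s * (54 * s ^ 2 + 1) = 22 * s * (54 * s ^ 2) + 22 * s := by ring
    rw [e2] at e1
    have e3 : 22 * s * (54 * s ^ 2) + 22 * s ≤ 22 * s * (54 * s ^ 2) := e1.trans h3
    have e4 := Nat.le_of_add_le_add_left (a := 22 * s * (54 * s ^ 2)) (b := 22 * s) (c := 0)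
      (by rw [add_zero]; exact e3)
    omega
  -- (4)
  have h4 : ∀ v ∈ H, ∀ l u, u ∈ C v l → u ≠ z → u ∉ P v' → u ∈ N0 ∧ NN v' u := by
    intro v hv l u hu huz huP
    have huV : u ∈ V.erase z := Finset.mem_erase.mpr ⟨huz, hCV v hv l hu⟩
    have huN := h1 v' hv' u huV huP
    refine ⟨huN, ?_⟩
    by_contra hNN
    have hNN' : ¬ (E v' z u ∨ z ∈ X v' ∨ u ∈ X v') := hNN
    push Not at hNN'
    obtain ⟨n1, n2, n3⟩ := hNN'
    have huH : u ∉ H := (Finset.mem_filter.mp huN).2.1
    obtain ⟨l', W, hW1, hW2, hW3⟩ := (hcore v' hv').2.2.2 z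
      (Finset.mem_erase.mpr ⟨fun h => hzH (h ▸ hv'), hzV⟩) u
      (Finset.mem_erase.mpr ⟨fun h => huH (h ▸ hv'), Finset.mem_of_mem_erase huV⟩)
      (fun h => huz h.symm) n2 n3 n1
    have hlt := (hPL v' hv').2 u huV huP W
      (fun w hw => hPA v' hv' (hCA v' l' w (hW1 hw) (hW3 w hw).1))
      (fun w hw => hsym.swap _ _ _ (hsym.rot _ _ _ (hsym.rot _ _ _ (hW3 w hw).2.2)))
    omega
  have h5 : ∑ v ∈ H, ∑ l : Fin 3, ((C v l).filter (fun u => u ≠ z ∧ u ∉ P v')).card ≤
      54 * s ^ 2 := by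
    refine le_trans ?_ hM
    apply Finset.sum_le_sum
    intro v hv
    apply Finset.sum_le_sum
    intro l _
    apply Finset.card_le_card
    intro u hu
    rw [Finset.mem_filter] at hu ⊢
    exact ⟨hu.1, h4 v hv l u hu.1 hu.2.1 hu.2.2⟩
  -- (5)
  obtain ⟨w, hwV, hwP⟩ : ∃ w ∈ V.erase z, w ∉ P v' := by
    by_contra hn
    push Not at hn
    exact hPne v' hv' (Finset.Subset.antisymm (hPL v' hv').1 hn)
  have hwN := h1 v' hv' w hwV hwP
  have hwH : w ∉ H := (Finset.mem_filter.mp hwN).2.1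
  have hwz : w ≠ z := Finset.ne_of_mem_erase hwV
  have h6 : 19 * s ≤ (H.filter (fun v => ¬ NN v w)).card := by
    have e1 := h2 w hwN
    have e2 := Finset.card_filter_add_card_filter_not (s := H) (fun v => NN v w)
    omega
  have h7 : ∀ v ∈ H.filter (fun v => ¬ NN v w), 3 * s + 1 ≤
      ∑ l : Fin 3, ((C v l).filter (fun u => u ≠ z ∧ u ∉ P v')).card := by
    intro v hv
    obtain ⟨hvH, hNN⟩ := Finset.mem_filter.mp hv
    have hNN' : ¬ (E v z w ∨ z ∈ X v ∨ w ∈ X v) := hNN
    push Not at hNN'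
    obtain ⟨n1, n2, n3⟩ := hNN'
    obtain ⟨l, W, hW1, hW2, hW3⟩ := (hcore v hvH).2.2.2 z
      (Finset.mem_erase.mpr ⟨fun h => hzH (h ▸ hvH), hzV⟩) w
      (Finset.mem_erase.mpr ⟨fun h => hwH (h ▸ hvH), Finset.mem_of_mem_erase hwV⟩)
      (fun h => hwz h.symm) n2 n3 n1
    have hlt := (hPL v' hv').2 w hwV hwP (W.filter (fun u => u ∈ P v'))
      (fun u hu => (Finset.mem_filter.mp hu).2)
      (fun u hu => hsym.swap _ _ _ (hsym.rot _ _ _ (hsym.rot _ _ _
        (hW3 u (Finset.mem_filter.mp hu).1).2.2)))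
    have e1 := Finset.card_filter_add_card_filter_not (s := W) (fun u => u ∈ P v')
    have e2 : (W.filter (fun u => ¬ u ∈ P v')).card ≤
        ((C v l).filter (fun u => u ≠ z ∧ u ∉ P v')).card := by
      apply Finset.card_le_card
      intro u hu
      rw [Finset.mem_filter] at hu ⊢
      exact ⟨hW1 hu.1, (hW3 u hu.1).1, hu.2⟩
    have e3 := Finset.single_le_sum
      (f := fun l : Fin 3 => ((C v l).filter (fun u => u ≠ z ∧ u ∉ P v')).card)
      (fun _ _ => Nat.zero_le _) (Finset.mem_univ l)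
    change ((C v l).filter (fun u => u ≠ z ∧ u ∉ P v')).card ≤ _ at e3
    omega
  have h8 : (19 * s) * (3 * s + 1) ≤ 54 * s ^ 2 := by
    calc (19 * s) * (3 * s + 1) ≤ (H.filter (fun v => ¬ NN v w)).card * (3 * s + 1) :=
          Nat.mul_le_mul_right _ h6
      _ ≤ ∑ v ∈ H.filter (fun v => ¬ NN v w),
          ∑ l : Fin 3, ((C v l).filter (fun u => u ≠ z ∧ u ∉ P v')).card := by
          rw [← smul_eq_mul]
          exact Finset.card_nsmul_le_sum _ _ _ h7
      _ ≤ ∑ v ∈ H, ∑ l : Fin 3, ((C v l).filter (fun u => u ≠ z ∧ u ∉ P v')).card :=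
          Finset.sum_le_sum_of_subset (Finset.filter_subset _ _)
      _ ≤ 54 * s ^ 2 := h5
  nlinarith

end Pool.Agent.H70.KK.AVG
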