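import Pool.Agent.H70.KK.Stm2

set_option autoImplicit false
open Finset

namespace Pool.Agent.H70.KK.CORE

open Pool.Agent.H70.KK

section

open scoped Classical in
/-- the closure of `A` in the link of `v` -/
noncomputable def cl {α : Type} [DecidableEq α] (E : α → α → α → Prop) (V : Finset α) (s : ℕ) (v : α)
    (A : Finset α) : Finset α :=
  (V.erase v).filter (fun y => ∀ P : Finset α, LC E V s v P → A ⊆ P → y ∈ P)

variable {α : Type} [DecidableEq α] {E : α → α → α → Prop} {V : Finset α} {s : ℕ} {v : α}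

theorem cl_sub (A : Finset α) : cl E V s v A ⊆ V.erase v := by
  classical
  unfold cl
  exact filter_subset _ _

theorem mem_cl {A : Finset α} {y : α} : y ∈ cl E V s v A ↔
    y ∈ V.erase v ∧ ∀ P : Finset α, LC E V s v P → A ⊆ P → y ∈ P := by
  classical
  unfold cl
  exact mem_filter

theorem sub_cl {A : Finset α} (hA : A ⊆ V.erase v) : A ⊆ cl E V s v A := by
  intro y hy
  rw [mem_cl]
  exact ⟨hA hy, fun P _ hAP => hAP hy⟩

theorem cl_le {A P : Finset α} (hP : LC E V s v P) (hAP : A ⊆ P) : cl E V s v A ⊆ P := by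
  intro y hy
  rw [mem_cl] at hy
  exact hy.2 P hP hAP

theorem cl_LC (A : Finset α) : LC E V s v (cl E V s v A) := by
  refine ⟨cl_sub A, fun y hy hyA W hW hE => ?_⟩
  have h1 : ¬ ∀ P : Finset α, LC E V s v P → A ⊆ P → y ∈ P := by
    intro h
    apply hyA
    rw [mem_cl]
    exact ⟨hy, h⟩
  push Not at h1
  obtain ⟨P, hP, hAP, hyP⟩ := h1
  exact hP.2 y hy hyP W (hW.trans (cl_le hP hAP)) hE

theorem big {A : Finset α} (hH : Hard E V s (304 * s) v) (hA : A ⊆ V.erase v) (hc : A.card ≤ 12 * s) :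
    6 * s ≤ (V.erase v \ cl E V s v A).card := by
  by_contra hlt
  push Not at hlt
  have h1 : A ∪ (V.erase v \ cl E V s v A) ⊆ V.erase v := union_subset hA sdiff_subset
  have h2 : (A ∪ (V.erase v \ cl E V s v A)).card ≤ 304 * s := by
    have := card_union_le A (V.erase v \ cl E V s v A)
    omega
  apply hH.2 _ h1 h2
  intro P hP hAP
  refine Subset.antisymm hP.1 fun y hy => ?_
  by_cases hyc : y ∈ cl E V s v A
  · exact cl_le hP (subset_union_left.trans hAP) hyc
  · exact hAP (mem_union_right _ (mem_sdiff.2 ⟨hy, hyc⟩))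

open scoped Classical in
/-- the vertices of `P` with many neighbours in `T` -/
noncomputable def XX (E : α → α → α → Prop) (s : ℕ) (v : α) (P T : Finset α) : Finset α :=
  P.filter (fun z => s ≤ (T.filter (fun w => E v w z)).card)

theorem XX_card (hsym : Sym3 E) (hs : 1 ≤ s) {P T : Finset α} (hP : LC E V s v P)
    (hT : T ⊆ V.erase v \ P) (hTc : T.card = 6 * s) : (XX E s v P T).card ≤ 6 * s := by
  classical
  have h1 : (XX E s v P T).card * s ≤ T.card * s := by
    apply card_mul_le_card_mul (fun z w => E v w z)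
    · intro z hz
      unfold XX at hz
      rw [mem_filter] at hz
      exact hz.2
    · intro w hw
      have hw2 := mem_sdiff.1 (hT hw)
      refine (hP.2 w hw2.1 hw2.2 _ ?_ ?_).le
      · intro z hz
        have hz1 := (mem_filter.1 hz).1
        unfold XX at hz1
        exact (mem_filter.1 hz1).1
      · intro z hz
        have hz2 := (mem_filter.1 hz).2
        exact hsym.swap _ _ _ (hsym.rot _ _ _ (hsym.rot _ _ _ hz2))
  rw [hTc] at h1
  exact Nat.le_of_mul_le_mul_right h1 (by omega)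

end

/-- hard vertices have cores -/
theorem core : S_CORE := by
  intro α _ E V s v hsym hcov hs hH
  classical
  -- the sets
  obtain ⟨T1, hT1, hT1c⟩ := exists_subset_card_eq (big hH (empty_subset _) (by simp))
  have hT1B : T1 ⊆ V.erase v := hT1.trans sdiff_subset
  set P1 := cl E V s v T1 with hP1
  have hP1L : LC E V s v P1 := cl_LC T1
  have hT1P : T1 ⊆ P1 := sub_cl hT1B
  obtain ⟨T2, hT2, hT2c⟩ := exists_subset_card_eq (big hH hT1B (by omega))
  have hT2B : T2 ⊆ V.erase v := hT2.trans sdiff_subset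
  have hT12B : T1 ∪ T2 ⊆ V.erase v := union_subset hT1B hT2B
  have hT12c : (T1 ∪ T2).card ≤ 12 * s := by
    have := card_union_le T1 T2
    omega
  set P2 := cl E V s v (T1 ∪ T2) with hP2
  have hP2L : LC E V s v P2 := cl_LC _
  have hT12P : T1 ∪ T2 ⊆ P2 := sub_cl hT12B
  have hP12 : P1 ⊆ P2 := cl_le hP2L (subset_union_left.trans hT12P)
  obtain ⟨T3, hT3, hT3c⟩ := exists_subset_card_eq (big hH hT12B hT12c)
  have hT3B : T3 ⊆ V.erase v := hT3.trans sdiff_subset
  have hX2 := XX_card hsym hs hP1L hT2 hT2c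
  have hX3 := XX_card hsym hs hP2L hT3 hT3c
  set X2 := XX E s v P1 T2 with hX2d
  set X3 := XX E s v P2 T3 with hX3d
  -- few neighbours
  have N1 : ∀ z ∈ V.erase v, z ∉ P1 → (T1.filter (fun w => E v w z)).card < s := by
    intro z hz hz1
    exact hP1L.2 z hz hz1 _ ((filter_subset _ _).trans hT1P) fun w hw => (mem_filter.1 hw).2
  have N2 : ∀ z ∈ V.erase v, z ∉ X2 ∪ X3 → (z ∈ P1 ∨ z ∉ P2) →
      (T2.filter (fun w => E v w z)).card < s := by
    intro z hz hzS h
    rcases h with h | h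
    · by_contra hcon
      push Not at hcon
      exact hzS (mem_union_left _ (mem_filter.2 ⟨h, hcon⟩))
    · exact hP2L.2 z hz h _ ((filter_subset _ _).trans (subset_union_right.trans hT12P))
        fun w hw => (mem_filter.1 hw).2
  have N3 : ∀ z ∈ V.erase v, z ∉ X2 ∪ X3 → z ∈ P2 → (T3.filter (fun w => E v w z)).card < s := by
    intro z hz hzS h
    by_contra hcon
    push Not at hcon
    exact hzS (mem_union_right _ (mem_filter.2 ⟨h, hcon⟩))
  have D1 : ∀ z, z ∉ P1 → z ∉ T1 := fun z hz h => hz (hT1P h)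
  have D2 : ∀ z, (z ∈ P1 ∨ z ∉ P2) → z ∉ T2 := by
    intro z hz h
    rcases hz with hz | hz
    · exact (mem_sdiff.1 (hT2 h)).2 hz
    · exact hz (hT12P (mem_union_right _ h))
  have D3 : ∀ z, z ∈ P2 → z ∉ T3 := fun z hz h => (mem_sdiff.1 (hT3 h)).2 hz
  refine ⟨![T1, T2, T3], X2 ∪ X3, ?_, ?_, ?_, ?_⟩
  · intro l
    fin_cases l
    · exact hT1B
    · exact hT2B
    · exact hT3B
  · intro l
    fin_cases l
    · exact hT1c
    · exact hT2c
    · exact hT3c
  · have := card_union_le X2 X3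
    omega
  intro x hx y hy hxy hxX hyX hE
  have hT : ∃ l : Fin 3, ((![T1, T2, T3] : Fin 3 → Finset α) l) ⊆ V.erase v ∧
      ((![T1, T2, T3] : Fin 3 → Finset α) l).card = 6 * s ∧
      x ∉ (![T1, T2, T3] : Fin 3 → Finset α) l ∧ y ∉ (![T1, T2, T3] : Fin 3 → Finset α) l ∧
      (((![T1, T2, T3] : Fin 3 → Finset α) l).filter (fun w => E v w x)).card < s ∧
      (((![T1, T2, T3] : Fin 3 → Finset α) l).filter (fun w => E v w y)).card < s := by
    by_cases hx1 : x ∈ P1
    · by_cases hy2 : y ∈ P2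
      · exact ⟨2, hT3B, hT3c, D3 x (hP12 hx1), D3 y hy2, N3 x hx hxX (hP12 hx1), N3 y hy hyX hy2⟩
      · exact ⟨1, hT2B, hT2c, D2 x (Or.inl hx1), D2 y (Or.inr hy2),
          N2 x hx hxX (Or.inl hx1), N2 y hy hyX (Or.inr hy2)⟩
    · by_cases hy1 : y ∈ P1
      · by_cases hx2 : x ∈ P2
        · exact ⟨2, hT3B, hT3c, D3 x hx2, D3 y (hP12 hy1), N3 x hx hxX hx2, N3 y hy hyX (hP12 hy1)⟩
        · exact ⟨1, hT2B, hT2c, D2 x (Or.inr hx2), D2 y (Or.inl hy1),
            N2 x hx hxX (Or.inr hx2), N2 y hy hyX (Or.inl hy1)⟩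
      · exact ⟨0, hT1B, hT1c, D1 x hx1, D1 y hy1, N1 x hx hx1, N1 y hy hy1⟩
  obtain ⟨l, hTB, hTc, hxT, hyT, hTx, hTy⟩ := hT
  generalize (![T1, T2, T3] : Fin 3 → Finset α) = C at hTB hTc hxT hyT hTx hTy ⊢
  refine ⟨l, (C l).filter (fun w => ¬ E v w x ∧ ¬ E v w y), filter_subset _ _, ?_, ?_⟩
  · have hcov2 : C l ⊆ (C l).filter (fun w => ¬ E v w x ∧ ¬ E v w y) ∪
        ((C l).filter (fun w => E v w x) ∪ (C l).filter (fun w => E v w y)) := by
      intro w hw
      by_cases h1 : E v w x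
      · exact mem_union_right _ (mem_union_left _ (mem_filter.2 ⟨hw, h1⟩))
      · by_cases h2 : E v w y
        · exact mem_union_right _ (mem_union_right _ (mem_filter.2 ⟨hw, h2⟩))
        · exact mem_union_left _ (mem_filter.2 ⟨hw, h1, h2⟩)
    have e1 := card_le_card hcov2
    have e2 := card_union_le ((C l).filter (fun w => ¬ E v w x ∧ ¬ E v w y))
      ((C l).filter (fun w => E v w x) ∪ (C l).filter (fun w => E v w y))
    have e3 := card_union_le ((C l).filter (fun w => E v w x)) ((C l).filter (fun w => E v w y))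
    omega
  · intro w hw
    obtain ⟨hwT, hw1, hw2⟩ := mem_filter.1 hw
    have hwx : w ≠ x := fun h => hxT (h ▸ hwT)
    have hwy : w ≠ y := fun h => hyT (h ▸ hwT)
    have hwB := mem_erase.1 (hTB hwT)
    refine ⟨hwx, hwy, ?_⟩
    have h1 := hcov v hH.1 w hwB.2 x (mem_of_mem_erase hx) y (mem_of_mem_erase hy) hwB.1.symm
      (ne_of_mem_erase hx).symm (ne_of_mem_erase hy).symm hwx hwy hxy
    rcases h1 with h1 | h1 | h1 | h1
    · exact absurd h1 hw1
    · exact absurd h1 hw2
    · exact absurd h1 hE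
    · exact hsym.rot _ _ _ h1

end Pool.Agent.H70.KK.CORE
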