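import Pool.Agent.H70.KK.Stm

set_option autoImplicit false
open Finset

namespace Pool.Agent.H70.KK.MAIN

theorem Cov.mono {α : Type} {E : α → α → α → Prop} {V W : Finset α} (h : Cov E V) (hW : W ⊆ V) : Cov E W :=
  fun a ha b hb c hc d hd => h a (hW ha) b (hW hb) c (hW hc) d (hW hd)

theorem CL.mono {α : Type} {E : α → α → α → Prop} {V W : Finset α} {s : ℕ} {F : α → α → Prop}
    (h : CL E V s F) (hW : W ⊆ V) : CL E W s F :=
  ⟨h.1, fun x hx y hy hxy U hU hs hU' => h.2 x (hW hx) y (hW hy) hxy U (hU.trans hW) hs hU'⟩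

/-- adding an easy vertex -/
theorem easy {α : Type} [DecidableEq α] {E : α → α → α → Prop} {V : Finset α} {s : ℕ} {v : α}
    (hE : Sym3 E) (hv : v ∈ V) {A : Finset α} (_hA : A ⊆ V.erase v) (hp : LPerc E V s v A)
    {I : Finset (α × α)} (hI : Perc E (V.erase v) s I) : Perc E V s (I ∪ A.image fun a => (v, a)) := by
  classical
  intro F hF hIF
  have h1 : ∀ x ∈ V.erase v, ∀ y ∈ V.erase v, x ≠ y → F x y :=
    hI F (CL.mono hF (erase_subset _ _)) (fun p hp => hIF p (mem_union_left _ hp))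
  have h2 : ∀ y ∈ V.erase v, F v y := by
    have h3 : (V.erase v).filter (fun y => F v y) = V.erase v := by
      apply hp
      · refine ⟨filter_subset _ _, ?_⟩
        intro y hy hyP W hW hWE
        by_contra hc
        apply hyP
        refine mem_filter.2 ⟨hy, ?_⟩
        refine hF.2 v hv y (mem_of_mem_erase hy) (ne_of_mem_erase hy).symm W
          (hW.trans ((filter_subset _ _).trans (erase_subset _ _))) (not_lt.1 hc) ?_
        intro w hw
        have hwP := mem_filter.1 (hW hw)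
        have hwy : w ≠ y := by
          rintro rfl
          exact hyP (hW hw)
        refine ⟨ne_of_mem_erase hwP.1, hwy, ?_, hF.1 _ _ hwP.2, h1 w hwP.1 y hy hwy⟩
        have := hWE w hw
        -- E v w y → E v y w
        exact hE.swap _ _ _ (hE.rot _ _ _ (hE.rot _ _ _ this))
      · intro a ha
        refine mem_filter.2 ⟨_hA ha, ?_⟩
        exact hIF (v, a) (mem_union_right _ (mem_image.2 ⟨a, ha, rfl⟩))
    intro y hy
    rw [← h3] at hy
    exact (mem_filter.1 hy).2
  intro x hx y hy hxy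
  by_cases hxv : x = v
  · subst hxv
    exact h2 y (mem_erase.2 ⟨hxy.symm, hy⟩)
  · by_cases hyv : y = v
    · subst hyv
      exact hF.1 _ _ (h2 x (mem_erase.2 ⟨hxy, hx⟩))
    · exact h1 x (mem_erase.2 ⟨hxv, hx⟩) y (mem_erase.2 ⟨hyv, hy⟩) hxy

theorem many {α : Type} [DecidableEq α] {E : α → α → α → Prop} {V : Finset α} {s : ℕ}
    (hE : Sym3 E) {H : Finset α} (hHV : H ⊆ V) (hH : s ≤ H.card)
    (I : α → Finset (α × α))
    (hI : ∀ v ∈ H, ∀ F : α → α → Prop, CL E V s F → (∀ p ∈ I v, F p.1 p.2) →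
      (∀ x ∈ V.erase v, F v x) ∧ ∀ x ∈ V.erase v, ∀ y ∈ V.erase v, x ≠ y → ¬ E v x y → F x y) :
    Perc E V s (H.biUnion I) := by
  intro F hF hIF x hx y hy hxy
  have h1 : ∀ v ∈ H, ∀ p ∈ I v, F p.1 p.2 := fun v hv p hp => hIF p (mem_biUnion.2 ⟨v, hv, hp⟩)
  by_cases hxH : x ∈ H
  · exact (hI x hxH F hF (h1 x hxH)).1 y (mem_erase.2 ⟨hxy.symm, hy⟩)
  by_cases hyH : y ∈ H
  · exact hF.1 _ _ ((hI y hyH F hF (h1 y hyH)).1 x (mem_erase.2 ⟨hxy, hx⟩))
  by_cases hex : ∃ v ∈ H, ¬ E v x y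
  · obtain ⟨v, hv, hvE⟩ := hex
    refine (hI v hv F hF (h1 v hv)).2 x (mem_erase.2 ⟨?_, hx⟩) y (mem_erase.2 ⟨?_, hy⟩) hxy hvE
    · rintro rfl; exact hxH hv
    · rintro rfl; exact hyH hv
  · push Not at hex
    refine hF.2 x hx y hy hxy H hHV hH ?_
    intro w hw
    have hwx : w ≠ x := by rintro rfl; exact hxH hw
    have hwy : w ≠ y := by rintro rfl; exact hyH hw
    have h3 := (hI w hw F hF (h1 w hw)).1
    exact ⟨hwx, hwy, hE.rot _ _ _ (hex w hw), h3 x (mem_erase.2 ⟨hwx.symm, hx⟩),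
      h3 y (mem_erase.2 ⟨hwy.symm, hy⟩)⟩

theorem main (hHard : S_HARD) : S_MAIN := by
  classical
  intro α _ E V s hE hcov hs
  induction hm : V.card generalizing V with
  | zero =>
    refine ⟨∅, by simp, ?_⟩
    intro F _ _ x hx
    rw [card_eq_zero.1 hm] at hx
    exact absurd hx (notMem_empty _)
  | succ m ih =>
    by_cases hbig : s ≤ (V.filter fun v => Hard E V s (9 * s) v).card
    · obtain ⟨H, hHs, hHc⟩ := exists_subset_card_eq hbig
      have hH : ∀ v ∈ H, v ∈ V ∧ Hard E V s (9 * s) v := fun v hv => mem_filter.1 (hHs hv)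
      have h1 : ∀ v : α, ∃ I : Finset (α × α), v ∈ H → (I.card ≤ 16 * s * V.card ∧
          ∀ F : α → α → Prop, CL E V s F → (∀ p ∈ I, F p.1 p.2) →
          (∀ x ∈ V.erase v, F v x) ∧ ∀ x ∈ V.erase v, ∀ y ∈ V.erase v, x ≠ y → ¬ E v x y → F x y) := by
        intro v
        by_cases hv : v ∈ H
        · obtain ⟨I, hI⟩ := hHard α inferInstance E V s v hE hcov hs (hH v hv).2
          exact ⟨I, fun _ => hI⟩
        · exact ⟨∅, fun h => absurd h hv⟩
      choose I hI using h1
      refine ⟨H.biUnion I, ?_, many hE (fun v hv => (hH v hv).1) (le_of_eq hHc.symm) I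
        (fun v hv => (hI v hv).2)⟩
      calc (H.biUnion I).card ≤ H.card * (16 * s * V.card) :=
            card_biUnion_le_card_mul _ _ _ (fun v hv => (hI v hv).1)
        _ = 16 * s ^ 2 * (m + 1) := by rw [hHc, hm]; ring
    · by_cases hall : ∀ v ∈ V, Hard E V s (9 * s) v
      · refine ⟨V ×ˢ V, ?_, ?_⟩
        · rw [card_product, filter_true_of_mem hall] at *
          have h2 : V.card < s := not_le.1 hbig
          rw [hm] at h2 ⊢
          nlinarith [Nat.zero_le m, Nat.zero_le s]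
        · intro F _ hIF x hx y hy _
          exact hIF (x, y) (mem_product.2 ⟨hx, hy⟩)
      · push Not at hall
        obtain ⟨v, hv, hvh⟩ := hall
        unfold Hard at hvh
        push Not at hvh
        obtain ⟨A, hA, hAc, hAp⟩ := hvh hv
        have hc : (V.erase v).card = m := by rw [card_erase_of_mem hv, hm]; rfl
        obtain ⟨I, hIc, hIp⟩ := ih (V.erase v) (Cov.mono hcov (erase_subset _ _)) hc
        refine ⟨I ∪ A.image fun a => (v, a), ?_, easy hE hv hA hAp hIp⟩
        have h3 := card_union_le I (A.image fun a => (v, a))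
        have h4 := card_image_le (s := A) (f := fun a => (v, a))
        have h5 : s ≤ s ^ 2 := by nlinarith
        nlinarith

end Pool.Agent.H70.KK.MAIN
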