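import Pool.Agent.H70.KK.Stm2
import Pool.Agent.H70.KK.MAIN

set_option autoImplicit false
open Finset

namespace Pool.Agent.H70.KK.MAIN2

open Pool.Agent.H70.KK.MAIN

theorem main2 (hC : S_CORE) (hA : S_AVG) : S_MAIN2 := by
  classical
  intro α _ E V s hE hcov hs
  induction hm : V.card generalizing V with
  | zero =>
    refine ⟨∅, by simp, ?_⟩
    intro F _ _ x hx
    rw [card_eq_zero.1 hm] at hx
    exact absurd hx (notMem_empty _)
  | succ m ih =>
    by_cases hsmall : V.card < 304 * s
    · refine ⟨V ×ˢ V, ?_, ?_⟩
      · rw [card_product]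
        rw [hm] at hsmall ⊢
        exact Nat.mul_le_mul_right _ hsmall.le
      · intro F _ hIF x hx y hy _
        exact hIF (x, y) (mem_product.2 ⟨hx, hy⟩)
    · have hlarge : 304 * s ≤ V.card := not_lt.1 hsmall
      have key : ∃ z ∈ V, ∃ A : Finset α, A ⊆ V.erase z ∧ A.card ≤ 304 * s ∧ LPerc E V s z A := by
        by_cases hbig : 22 * s ≤ (V.filter fun v => Hard E V s (304 * s) v).card
        · obtain ⟨H, hHs, hHc⟩ := exists_subset_card_eq hbig
          have hH : ∀ v ∈ H, v ∈ V ∧ Hard E V s (304 * s) v := fun v hv => mem_filter.1 (hHs hv)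
          have h1 : ∀ v : α, ∃ C : Fin 3 → Finset α, ∃ X : Finset α, v ∈ H → Core E V s v C X := by
            intro v
            by_cases hv : v ∈ H
            · obtain ⟨C, X, h⟩ := hC α inferInstance E V s v hE hcov hs (hH v hv).2
              exact ⟨C, X, fun _ => h⟩
            · exact ⟨fun _ => ∅, ∅, fun h => absurd h hv⟩
          choose C X h using h1
          exact hA α inferInstance E V s H C X hE hs hlarge (fun v hv => (hH v hv).1) hHc h
        · have h2 : (V.filter fun v => Hard E V s (304 * s) v).card < V.card := by omega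
          have h3 : ∃ v ∈ V, ¬ Hard E V s (304 * s) v := by
            by_contra hcon
            push Not at hcon
            rw [filter_true_of_mem hcon] at h2
            exact lt_irrefl _ h2
          obtain ⟨v, hv, hvh⟩ := h3
          unfold Hard at hvh
          push Not at hvh
          obtain ⟨A, hA1, hA2, hA3⟩ := hvh hv
          exact ⟨v, hv, A, hA1, hA2, hA3⟩
      obtain ⟨v, hv, A, hA1, hA2, hA3⟩ := key
      have hc : (V.erase v).card = m := by rw [card_erase_of_mem hv, hm]; rfl
      obtain ⟨I, hIc, hIp⟩ := ih (V.erase v) (Cov.mono hcov (erase_subset _ _)) hc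
      refine ⟨I ∪ A.image fun a => (v, a), ?_, easy hE hv hA1 hA3 hIp⟩
      have h3 := card_union_le I (A.image fun a => (v, a))
      have h4 := card_image_le (s := A) (f := fun a => (v, a))
      rw [Nat.mul_succ]
      omega

end Pool.Agent.H70.KK.MAIN2
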