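import Pool.Agent.H70.KK.Stm

set_option autoImplicit false
open Finset

namespace Pool.Agent.H70.KK.ONE

variable {α : Type} [DecidableEq α] {E : α → α → α → Prop} {V : Finset α}

theorem top1 {F : α → α → Prop} (hF : CL E V 1 F) {x y w : α} (hx : x ∈ V) (hy : y ∈ V)
    (hw : w ∈ V) (hxy : x ≠ y) (hwx : w ≠ x) (hwy : w ≠ y) (hE : E x y w) (h1 : F w x)
    (h2 : F w y) : F x y := by
  refine hF.2 x hx y hy hxy {w} (singleton_subset_iff.2 hw) (by simp) fun u hu => ?_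
  rw [mem_singleton] at hu
  subst hu
  exact ⟨hwx, hwy, hE, h1, h2⟩

theorem lc1 {v : α} {P : Finset α} : LC E V 1 v P ↔
    P ⊆ V.erase v ∧ ∀ y ∈ V.erase v, y ∉ P → ∀ w ∈ P, ¬ E v w y := by
  constructor
  · rintro ⟨h1, h2⟩
    refine ⟨h1, fun y hy hyP w hw hE => ?_⟩
    have h3 := h2 y hy hyP {w} (singleton_subset_iff.2 hw) (fun u hu => by
      rw [mem_singleton] at hu
      subst hu
      exact hE)
    rw [card_singleton] at h3
    exact lt_irrefl _ h3
  · rintro ⟨h1, h2⟩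
    refine ⟨h1, fun y hy hyP W hW hE => ?_⟩
    rcases W.eq_empty_or_nonempty with h | ⟨w, hw⟩
    · rw [h, card_empty]
      exact Nat.one_pos
    · exact absurd (hE w hw) (h2 y hy hyP w (hW hw))

theorem sym23 (hE : Sym3 E) {a b c : α} (h : E a b c) : E a c b :=
  hE.rot _ _ _ (hE.swap _ _ _ h)

/-- case A -/
theorem caseA {n : ℕ} (hE : Sym3 E) {v : α} (hv : v ∈ V) (hc : V.card = n + 3) (A : Finset α)
    (hA : A ⊆ V.erase v) (hA2 : A.card ≤ 2) (hp : LPerc E V 1 v A) (I' : Finset (α × α))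
    (hI' : I'.card ≤ 2 * n + 1) (hP : Perc E (V.erase v) 1 I') :
    ∃ I : Finset (α × α), I.card ≤ 2 * (n + 1) + 1 ∧ Perc E V 1 I := by
  classical
  refine ⟨I' ∪ A.image (fun a => (v, a)), ?_, fun F hF hI => ?_⟩
  · have h1 := card_union_le I' (A.image fun a => (v, a))
    have h2 : (A.image fun a => (v, a)).card ≤ A.card := card_image_le
    omega
  · have hF' : CL E (V.erase v) 1 F := ⟨hF.1, fun x hx y hy hxy W hW => hF.2 x (mem_of_mem_erase hx)
      y (mem_of_mem_erase hy) hxy W (hW.trans (erase_subset _ _))⟩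
    have h1 := hP F hF' fun p hp => hI p (mem_union_left _ hp)
    have h2 : (V.erase v).filter (fun y => F v y) = V.erase v := by
      refine hp _ (lc1.2 ⟨filter_subset _ _, fun y hy hyP w hw hEw => ?_⟩) fun a ha => ?_
      · rw [mem_filter] at hw
        apply hyP
        rw [mem_filter]
        refine ⟨hy, ?_⟩
        have hwy : w ≠ y := by
          rintro rfl
          exact hyP (mem_filter.2 hw)
        exact top1 hF hv (mem_of_mem_erase hy) (mem_of_mem_erase hw.1) (ne_of_mem_erase hy).symm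
          (ne_of_mem_erase hw.1) hwy (sym23 hE hEw) (hF.1 _ _ hw.2) (h1 w hw.1 y hy hwy)
      · exact mem_filter.2 ⟨hA ha, hI (v, a) (mem_union_right _ (mem_image_of_mem _ ha))⟩
    have h3 : ∀ y ∈ V.erase v, F v y := fun y hy => by
      rw [← h2, mem_filter] at hy
      exact hy.2
    intro x hx y hy hxy
    by_cases hxv : x = v
    · subst hxv
      exact h3 y (mem_erase.2 ⟨hxy.symm, hy⟩)
    · by_cases hyv : y = v
      · subst hyv
        exact hF.1 _ _ (h3 x (mem_erase.2 ⟨hxv, hx⟩))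
      · exact h1 x (mem_erase.2 ⟨hxv, hx⟩) y (mem_erase.2 ⟨hyv, hy⟩) hxy

/-- case B -/
theorem caseB {n : ℕ} (hE : Sym3 E) (hcov : Cov E V) {v : α} (hv : v ∈ V)
    (hc : V.card = n + 3) (hard : ∀ A : Finset α, A ⊆ V.erase v → A.card ≤ 2 → ¬ LPerc E V 1 v A) :
    ∃ I : Finset (α × α), I.card ≤ 2 * (n + 1) + 1 ∧ Perc E V 1 I := by
  classical
  have hBc : (V.erase v).card = n + 2 := by
    rw [card_erase_of_mem hv, hc]
    rfl
  have hout : ∀ A : Finset α, A ⊆ V.erase v → A.card ≤ 2 → ∃ P : Finset α, LC E V 1 v P ∧ A ⊆ P ∧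
      ∃ z ∈ V.erase v, z ∉ P := by
    intro A hA hA2
    have h1 := hard A hA hA2
    unfold LPerc at h1
    push Not at h1
    obtain ⟨P, hP, hAP, hne⟩ := h1
    refine ⟨P, hP, hAP, ?_⟩
    by_contra hcon
    push Not at hcon
    exact hne (Subset.antisymm hP.1 hcon)
  obtain ⟨x0, hx0⟩ : (V.erase v).Nonempty := card_pos.1 (by omega)
  obtain ⟨P0, hP0, hxP0, y0, hy0, hyP0⟩ := hout {x0} (singleton_subset_iff.2 hx0) (by simp)
  obtain ⟨P2, hP2, hxy2, z0, hz0, hzP2⟩ := hout {x0, y0} (by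
    intro a ha
    rw [mem_insert, mem_singleton] at ha
    rcases ha with rfl | rfl <;> assumption) (card_le_two)
  have hx0P0 : x0 ∈ P0 := hxP0 (mem_singleton_self _)
  have hx0P2 : x0 ∈ P2 := hxy2 (mem_insert_self _ _)
  have hy0P2 : y0 ∈ P2 := hxy2 (mem_insert_of_mem (mem_singleton_self _))
  rw [lc1] at hP0 hP2
  obtain ⟨P1, hP1def⟩ : ∃ P1, P1 = P0 ∩ P2 := ⟨_, rfl⟩
  have hP1 : P1 ⊆ V.erase v ∧ ∀ y ∈ V.erase v, y ∉ P1 → ∀ w ∈ P1, ¬ E v w y := by
    subst hP1def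
    refine ⟨inter_subset_left.trans hP0.1, fun y hy hyP w hw => ?_⟩
    rw [mem_inter] at hw hyP
    by_cases h : y ∈ P0
    · exact hP2.2 y hy (fun h' => hyP ⟨h, h'⟩) w hw.2
    · exact hP0.2 y hy h w hw.1
  have hx01 : x0 ∈ P1 := by rw [hP1def]; exact mem_inter.2 ⟨hx0P0, hx0P2⟩
  have hy01 : y0 ∉ P1 := by
    rw [hP1def, mem_inter]
    exact fun h => hyP0 h.1
  have h12 : P1 ⊆ P2 := by rw [hP1def]; exact inter_subset_right
  have hz01 : z0 ∉ P1 := fun h => hzP2 (h12 h)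
  -- the seeds
  refine ⟨(V.erase v).image (fun x => (v, x)) ∪ (((V.erase v) \ P1).image (fun z => (x0, z)) ∪
    (P1.erase x0).image (fun x => (x, y0))), ?_, fun F hF hI => ?_⟩
  · have c1 : ((V.erase v).image fun x => (v, x)).card ≤ (V.erase v).card := card_image_le
    have c2 : (((V.erase v) \ P1).image fun z => (x0, z)).card ≤ ((V.erase v) \ P1).card :=
      card_image_le
    have c3 : ((P1.erase x0).image fun x => (x, y0)).card ≤ (P1.erase x0).card := card_image_le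
    have c4 := card_sdiff_add_card_eq_card hP1.1
    have c5 := card_erase_of_mem hx01
    have c6 : 0 < P1.card := card_pos.2 ⟨x0, hx01⟩
    have c7 := card_union_le ((V.erase v).image fun x => (v, x))
      (((V.erase v) \ P1).image (fun z => (x0, z)) ∪ (P1.erase x0).image (fun x => (x, y0)))
    have c8 := card_union_le (((V.erase v) \ P1).image (fun z => (x0, z)))
      ((P1.erase x0).image (fun x => (x, y0)))
    omega
  · have s1 : ∀ x ∈ V.erase v, F v x := fun x hx =>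
      hI (v, x) (mem_union_left _ (mem_image_of_mem _ hx))
    have s2 : ∀ z ∈ V.erase v, z ∉ P1 → F x0 z := fun z hz hz1 =>
      hI (x0, z) (mem_union_right _ (mem_union_left _
        (mem_image_of_mem (fun z => (x0, z)) (mem_sdiff.2 ⟨hz, hz1⟩))))
    have s3 : ∀ x ∈ P1, x ≠ x0 → F x y0 := fun x hx hx' =>
      hI (x, y0) (mem_union_right _ (mem_union_right _
        (mem_image_of_mem (fun x => (x, y0)) (mem_erase.2 ⟨hx', hx⟩))))
    have mV : ∀ {x}, x ∈ V.erase v → x ∈ V := fun hx => mem_of_mem_erase hx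
    have hedge : ∀ a ∈ V.erase v, ∀ b ∈ V.erase v, ∀ c ∈ V.erase v, a ≠ b → a ≠ c → b ≠ c →
        ¬ E v a b → ¬ E v a c → ¬ E v b c → E a b c := by
      intro a ha b hb c hc hab hac hbc h1 h2 h3
      rcases hcov v hv a (mV ha) b (mV hb) c (mV hc) (ne_of_mem_erase ha).symm
        (ne_of_mem_erase hb).symm (ne_of_mem_erase hc).symm hab hac hbc with h | h | h | h
      · exact absurd h h1
      · exact absurd h h2
      · exact absurd h h3
      · exact h
    -- edges in the link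
    have g1 : ∀ x ∈ V.erase v, ∀ y ∈ V.erase v, x ≠ y → E v x y → F x y := by
      intro x hx y hy hxy h
      exact top1 hF (mV hx) (mV hy) hv hxy (ne_of_mem_erase hx).symm (ne_of_mem_erase hy).symm
        (hE.rot _ _ _ h) (s1 x hx) (s1 y hy)
    -- no edges between the parts
    have n1 : ∀ x ∈ P1, ∀ y ∈ V.erase v, y ∉ P1 → ¬ E v x y := fun x hx y hy hyP =>
      hP1.2 y hy hyP x hx
    have n2 : ∀ x ∈ P2, ∀ y ∈ V.erase v, y ∉ P2 → ¬ E v x y := fun x hx y hy hyP =>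
      hP2.2 y hy hyP x hx
    have ne1 : ∀ {x y}, x ∈ P1 → y ∉ P1 → x ≠ y := fun hx hy h => hy (h ▸ hx)
    have ne2 : ∀ {x y}, x ∈ P2 → y ∉ P2 → x ≠ y := fun hx hy h => hy (h ▸ hx)
    -- (ii)
    have g2 : ∀ y ∈ P2, y ∉ P1 → ∀ z ∈ V.erase v, z ∉ P2 → F y z := by
      intro y hy hy1 z hz hz2
      have hz1 : z ∉ P1 := fun h => hz2 (h12 h)
      have hyB := hP2.1 hy
      exact top1 hF (mV hyB) (mV hz) (mV hx0) (ne2 hy hz2) (ne1 hx01 hy1) (ne1 hx01 hz1)
        (hE.rot _ _ _ (hedge x0 hx0 y hyB z hz (ne1 hx01 hy1) (ne1 hx01 hz1) (ne2 hy hz2)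
          (n1 _ hx01 _ hyB hy1) (n1 _ hx01 _ hz hz1) (n2 _ hy _ hz hz2)))
        (s2 y hyB hy1) (s2 z hz hz1)
    -- (iii)
    have g3 : ∀ x ∈ P1, ∀ z ∈ V.erase v, z ∉ P2 → F x z := by
      intro x hx z hz hz2
      have hz1 : z ∉ P1 := fun h => hz2 (h12 h)
      have hxB := hP1.1 hx
      by_cases hxx : x = x0
      · rw [hxx]
        exact s2 z hz hz1
      · have e : E x y0 z := hedge x hxB y0 hy0 z hz (ne1 hx hy01) (ne1 hx hz1) (ne2 hy0P2 hz2)
          (n1 _ hx _ hy0 hy01) (n1 _ hx _ hz hz1) (n2 _ hy0P2 _ hz hz2)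
        exact top1 hF (mV hxB) (mV hz) (mV hy0) (ne1 hx hz1) (ne1 hx hy01).symm
          (ne2 hy0P2 hz2) (sym23 hE e) (hF.1 _ _ (s3 x hx hxx)) (g2 y0 hy0P2 hy01 z hz hz2)
    -- (iv)
    have g4 : ∀ x ∈ P1, ∀ y ∈ P2, y ∉ P1 → F x y := by
      intro x hx y hy hy1
      have hxB := hP1.1 hx
      have hyB := hP2.1 hy
      have e : E x y z0 := hedge x hxB y hyB z0 hz0 (ne1 hx hy1) (ne1 hx hz01) (ne2 hy hzP2)
          (n1 _ hx _ hyB hy1) (n1 _ hx _ hz0 hz01) (n2 _ hy _ hz0 hzP2)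
      exact top1 hF (mV hxB) (mV hyB) (mV hz0) (ne1 hx hy1) (ne1 hx hz01).symm
        (ne2 hy hzP2).symm e (hF.1 _ _ (g3 x hx z0 hz0 hzP2)) (hF.1 _ _ (g2 y hy hy1 z0 hz0 hzP2))
    -- different parts
    have g5 : ∀ x ∈ P1, ∀ y ∈ V.erase v, y ∉ P1 → F x y := by
      intro x hx y hy hy1
      by_cases hy2 : y ∈ P2
      · exact g4 x hx y hy2 hy1
      · exact g3 x hx y hy hy2
    have g6 : ∀ x ∈ P2, ∀ y ∈ V.erase v, y ∉ P2 → F x y := by
      intro x hx y hy hy2
      by_cases hx1 : x ∈ P1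
      · exact g3 x hx1 y hy hy2
      · exact g2 x hx hx1 y hy hy2
    have swp : ∀ {x y}, ¬ E v x y → ¬ E v y x := fun h h' => h (sym23 hE h')
    -- a third point in another part
    have third : ∀ x ∈ V.erase v, ∀ y ∈ V.erase v, x ≠ y → ¬ E v x y → ∀ w ∈ V.erase v, w ≠ x →
        w ≠ y → ¬ E v x w → ¬ E v y w → F w x → F w y → F x y := by
      intro x hx y hy hxy h w hw hwx hwy h1 h2 f1 f2
      exact top1 hF (mV hx) (mV hy) (mV hw) hxy hwx hwy
        (hedge x hx y hy w hw hxy hwx.symm hwy.symm h h1 h2) f1 f2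
    -- all pairs outside v
    have g7 : ∀ x ∈ V.erase v, ∀ y ∈ V.erase v, x ≠ y → F x y := by
      intro x hx y hy hxy
      by_cases hxyE : E v x y
      · exact g1 x hx y hy hxy hxyE
      by_cases hx1 : x ∈ P1
      · by_cases hy1 : y ∈ P1
        · exact third x hx y hy hxy hxyE z0 hz0 (ne1 hx1 hz01).symm (ne1 hy1 hz01).symm
            (n1 _ hx1 _ hz0 hz01) (n1 _ hy1 _ hz0 hz01) (hF.1 _ _ (g5 x hx1 z0 hz0 hz01))
            (hF.1 _ _ (g5 y hy1 z0 hz0 hz01))
        · exact g5 x hx1 y hy hy1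
      · by_cases hy1 : y ∈ P1
        · exact hF.1 _ _ (g5 y hy1 x hx hx1)
        · exact third x hx y hy hxy hxyE x0 hx0 (ne1 hx01 hx1) (ne1 hx01 hy1)
            (swp (n1 _ hx01 _ hx hx1)) (swp (n1 _ hx01 _ hy hy1)) (g5 x0 hx01 x hx hx1)
            (g5 x0 hx01 y hy hy1)
    intro x hx y hy hxy
    by_cases hxv : x = v
    · subst hxv
      exact s1 y (mem_erase.2 ⟨hxy.symm, hy⟩)
    · by_cases hyv : y = v
      · subst hyv
        exact hF.1 _ _ (s1 x (mem_erase.2 ⟨hxv, hx⟩))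
      · exact g7 x (mem_erase.2 ⟨hxv, hx⟩) y (mem_erase.2 ⟨hyv, hy⟩) hxy

theorem main (hE : Sym3 E) (n : ℕ) : ∀ V : Finset α, V.card = n + 2 → Cov E V →
    ∃ I : Finset (α × α), I.card ≤ 2 * n + 1 ∧ Perc E V 1 I := by
  induction n with
  | zero =>
    intro V hc hcov
    obtain ⟨x, y, hxy, rfl⟩ := card_eq_two.1 hc
    refine ⟨{(x, y)}, by simp, fun F hF hI a ha b hb hab => ?_⟩
    have h : F x y := hI (x, y) (mem_singleton_self _)
    rw [mem_insert, mem_singleton] at ha hb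
    rcases ha with rfl | rfl <;> rcases hb with rfl | rfl
    · exact absurd rfl hab
    · exact h
    · exact hF.1 _ _ h
    · exact absurd rfl hab
  | succ n ih =>
    intro V hc hcov
    by_cases hall : ∀ v ∈ V, Hard E V 1 2 v
    · obtain ⟨v, hv⟩ : V.Nonempty := card_pos.1 (by omega)
      exact caseB hE hcov hv hc (hall v hv).2
    · push Not at hall
      obtain ⟨v, hv, hnh⟩ := hall
      unfold Hard at hnh
      push Not at hnh
      obtain ⟨A, hA, hA2, hp⟩ := hnh hv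
      obtain ⟨I', hI', hP⟩ := ih (V.erase v) (by rw [card_erase_of_mem hv, hc]; rfl)
        (fun a ha b hb c hc d hd => hcov a (mem_of_mem_erase ha) b (mem_of_mem_erase hb) c
          (mem_of_mem_erase hc) d (mem_of_mem_erase hd))
      exact caseA hE hv hc A hA hA2 hp I' hI' hP

theorem one : S_ONE := by
  intro α _ E V hE hcov hc
  obtain ⟨n, hn⟩ : ∃ n, V.card = n + 2 := ⟨V.card - 2, by omega⟩
  obtain ⟨I, hI, hP⟩ := main hE n V hn hcov
  exact ⟨I, by omega, hP⟩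

end Pool.Agent.H70.KK.ONE
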