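import Pool.Agent.H70.KK.Stm

set_option autoImplicit false
open Finset

namespace Pool.Agent.H70.KK.STAGE

variable {n : ℕ}

/-- the pairs which are filled after `k` steps -/
def S (s : ℕ) (G : Finset (Finset (Fin n))) (I : Finset (Fin n × Fin n)) :
    ℕ → Fin n → Fin n → Prop
  | 0, x, y => (x, y) ∈ I ∨ (y, x) ∈ I
  | k + 1, x, y => S s G I k x y ∨ ∃ W : Finset (Fin n), s ≤ W.card ∧
      ∀ w ∈ W, w ≠ x ∧ w ≠ y ∧ EE G x y w ∧ S s G I k w x ∧ S s G I k w y

variable {s : ℕ} {G : Finset (Finset (Fin n))} {I : Finset (Fin n × Fin n)}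

theorem EE_swap {x y w : Fin n} (h : EE G x y w) : EE G y x w := by
  unfold EE at h ⊢
  have e : ({y, x, w} : Finset (Fin n)) = {x, y, w} := by
    ext z
    simp only [mem_insert, mem_singleton]
    tauto
  rw [e]
  exact h

theorem S_symm : ∀ (k : ℕ) (x y : Fin n), S s G I k x y → S s G I k y x := by
  intro k
  induction k with
  | zero =>
    intro x y h
    exact h.symm
  | succ k ih =>
    intro x y h
    rcases h with h | ⟨W, hW, h⟩
    · exact Or.inl (ih x y h)
    · refine Or.inr ⟨W, hW, fun w hw => ?_⟩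
      obtain ⟨h1, h2, h3, h4, h5⟩ := h w hw
      exact ⟨h2, h1, EE_swap h3, h5, h4⟩

theorem S_mono {x y : Fin n} : ∀ {k m : ℕ}, k ≤ m → S s G I k x y → S s G I m x y := by
  intro k m h
  induction h with
  | refl => exact id
  | step _ ih => exact fun h => Or.inl (ih h)

theorem closed : CL (EE G) univ s (fun x y => ∃ k, S s G I k x y) := by
  classical
  refine ⟨fun x y ⟨k, h⟩ => ⟨k, S_symm k x y h⟩, ?_⟩
  intro x _ y _ _ W _ hW h
  have h1 : ∀ w, ∃ k, w ∈ W → S s G I k w x ∧ S s G I k w y := by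
    intro w
    by_cases hw : w ∈ W
    · obtain ⟨-, -, -, ⟨k, hk⟩, ⟨m, hm⟩⟩ := h w hw
      exact ⟨max k m, fun _ => ⟨S_mono (le_max_left _ _) hk, S_mono (le_max_right _ _) hm⟩⟩
    · exact ⟨0, fun h => absurd h hw⟩
  choose f hf using h1
  refine ⟨W.sup f + 1, Or.inr ⟨W, hW, fun w hw => ?_⟩⟩
  obtain ⟨h2, h3, h4, -, -⟩ := h w hw
  obtain ⟨h5, h6⟩ := hf w hw
  have h7 : f w ≤ W.sup f := Finset.le_sup hw
  exact ⟨h2, h3, h4, S_mono h7 h5, S_mono h7 h6⟩

/-- the first step at which the pair is filled -/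
noncomputable def r (s : ℕ) (G : Finset (Finset (Fin n))) (I : Finset (Fin n × Fin n))
    (x y : Fin n) : ℕ := sInf {k | S s G I k x y}

theorem r_symm (x y : Fin n) : r s G I x y = r s G I y x := by
  unfold r
  congr 1
  ext k
  exact ⟨S_symm k x y, S_symm k y x⟩

theorem r_le {x y : Fin n} {k : ℕ} (h : S s G I k x y) : r s G I x y ≤ k := Nat.sInf_le h

theorem r_mem {x y : Fin n} (h : ∃ k, S s G I k x y) : S s G I (r s G I x y) x y :=
  Nat.sInf_mem (s := {k | S s G I k x y}) h

theorem le_tops {x y : Fin n} (h : ∃ k, S s G I k x y) (h0 : r s G I x y ≠ 0) :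
    s ≤ (tops G (r s G I) x y).card := by
  obtain ⟨k, hk⟩ := Nat.exists_eq_succ_of_ne_zero h0
  have h1 := r_mem h
  rw [hk] at h1
  rcases h1 with h1 | ⟨W, hW, h1⟩
  · have := r_le h1
    omega
  · refine hW.trans (card_le_card fun w hw => ?_)
    obtain ⟨h2, h3, h4, h5, h6⟩ := h1 w hw
    unfold tops
    rw [mem_filter]
    refine ⟨mem_univ w, h2, h3, ?_, ?_, ?_⟩
    · unfold EE at h4
      have e : ({x, w, y} : Finset (Fin n)) = {x, y, w} := by
        ext z
        simp only [mem_insert, mem_singleton]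
        tauto
      rw [e]
      exact h4
    · rw [r_symm x w]
      have := r_le h5
      omega
    · have := r_le h6
      omega

theorem card_pairs (n : ℕ) : ∑ x : Fin n, (univ.filter (fun y : Fin n => x < y)).card =
    n.choose 2 := by
  have h1 : ∀ x : Fin n, (univ.filter (fun y : Fin n => x < y)).card = n - 1 - (x : ℕ) := by
    intro x
    rw [← Fin.card_Ioi]
    congr 1
    ext y
    simp
  rw [sum_congr rfl fun x _ => h1 x, Fin.sum_univ_eq_sum_range (fun i => n - 1 - i) n,
    sum_range_reflect (fun i => i) n, Finset.sum_range_id, Nat.choose_two_right]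

theorem card_zero (Z : Finset (Fin n × Fin n)) (h : ∀ p ∈ Z, p.1 < p.2 ∧
    ((p.1, p.2) ∈ I ∨ (p.2, p.1) ∈ I)) : Z.card ≤ I.card := by
  classical
  have h1 : Z ⊆ I.image (fun p => if p.1 < p.2 then p else p.swap) := by
    intro p hp
    obtain ⟨h2, h3 | h3⟩ := h p hp
    · rw [mem_image]
      exact ⟨p, h3, if_pos h2⟩
    · rw [mem_image]
      exact ⟨(p.2, p.1), h3, if_neg (not_lt.2 h2.le)⟩
  exact (card_le_card h1).trans card_image_le

theorem stage : S_STAGE := by
  classical
  intro n s G I hP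
  have hall : ∀ x y : Fin n, x ≠ y → ∃ k, S s G I k x y := fun x y hxy =>
    hP _ closed (fun p hp => ⟨0, Or.inl hp⟩) x (mem_univ x) y (mem_univ y) hxy
  refine ⟨r s G I, r_symm, ?_⟩
  have h1 : s * n.choose 2 = ∑ x : Fin n, ∑ y ∈ univ.filter (fun y => x < y), s := by
    rw [← card_pairs, mul_sum]
    apply sum_congr rfl
    intro x _
    rw [sum_const, smul_eq_mul, mul_comm]
  have h2 : ∑ x : Fin n, ∑ y ∈ univ.filter (fun y => x < y), s ≤
      ∑ x : Fin n, ∑ y ∈ univ.filter (fun y => x < y), (min s (tops G (r s G I) x y).card +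
        if r s G I x y = 0 then s else 0) := by
    apply sum_le_sum
    intro x _
    apply sum_le_sum
    intro y hy
    by_cases h0 : r s G I x y = 0
    · rw [if_pos h0]
      omega
    · rw [if_neg h0, add_zero]
      have hxy : x < y := (mem_filter.1 hy).2
      exact le_min le_rfl (le_tops (hall x y hxy.ne) h0)
  have h3 : ∑ x : Fin n, ∑ y ∈ univ.filter (fun y => x < y), (if r s G I x y = 0 then s else 0) ≤
      s * I.card := by
    have h4 : ∑ x : Fin n, ∑ y ∈ univ.filter (fun y => x < y),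
        (if r s G I x y = 0 then s else 0) =
        ∑ p : Fin n × Fin n, if p.1 < p.2 ∧ r s G I p.1 p.2 = 0 then s else 0 := by
      rw [Fintype.sum_prod_type]
      apply sum_congr rfl
      intro x _
      rw [sum_filter]
      apply sum_congr rfl
      intro y _
      by_cases ha : x < y
      · by_cases hb : r s G I x y = 0
        · simp [ha, hb]
        · simp [ha, hb]
      · simp [ha]
    rw [h4, ← sum_filter, sum_const, smul_eq_mul, mul_comm]
    apply Nat.mul_le_mul_left
    apply card_zero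
    intro p hp
    rw [mem_filter] at hp
    obtain ⟨-, hp1, hp2⟩ := hp
    refine ⟨hp1, ?_⟩
    have h5 := r_mem (hall p.1 p.2 hp1.ne)
    rw [hp2] at h5
    exact h5
  rw [h1]
  refine h2.trans ?_
  simp only [sum_add_distrib]
  exact Nat.add_le_add_left h3 _

end Pool.Agent.H70.KK.STAGE
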