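import Pool.Agent.H70.KK.MAIN2
import Pool.Agent.H70.KK.ONE
import Pool.Agent.H70.KK.STAGE
import Pool.Graph.R_seed8.TH173.KR.Alg2

set_option autoImplicit false
open Finset

namespace Pool.Agent.H70.KK.Rank

/-- Kalai's matrix `M_s(G)`. -/
noncomputable def kalaiMatrix (n s : ℕ) (G : Finset (Finset (Fin n))) :
    Matrix {e : Finset (Fin n) // e ∈ G} (Fin s × {p : Fin n × Fin n // p.1 < p.2})
      (FractionRing (MvPolynomial (Fin s × Fin n) ℚ)) :=
  Matrix.of (fun (e : {e : Finset (Fin n) // e ∈ G})
      (c : Fin s × {p : Fin n × Fin n // p.1 < p.2}) =>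
    if c.2.1.1 ∈ e.1 ∧ c.2.1.2 ∈ e.1 then
      ∑ w ∈ e.1 \ {c.2.1.1, c.2.1.2},
        (if c.2.1.1 < w ∧ w < c.2.1.2 then
          algebraMap (MvPolynomial (Fin s × Fin n) ℚ)
            (FractionRing (MvPolynomial (Fin s × Fin n) ℚ))
            (MvPolynomial.X (c.1, w))
        else
          -algebraMap (MvPolynomial (Fin s × Fin n) ℚ)
            (FractionRing (MvPolynomial (Fin s × Fin n) ℚ))
            (MvPolynomial.X (c.1, w)))
    else (0 : FractionRing (MvPolynomial (Fin s × Fin n) ℚ)))

/-- the columns of the matrix -/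
def col {n s : ℕ} (hn : 1 < n) (i : Fin s) (q : Fin n × Fin n) :
    Fin s × {p : Fin n × Fin n // p.1 < p.2} :=
  if h : q.1 < q.2 then (i, ⟨q, h⟩) else
    (i, ⟨(⟨0, by omega⟩, ⟨1, by omega⟩), Fin.mk_lt_mk.2 (by omega)⟩)

theorem kalai_ent {n s : ℕ} (hn : 1 < n) (G : Finset (Finset (Fin n)))
    (e : {e : Finset (Fin n) // e ∈ G}) (i : Fin s) (q : Fin n × Fin n) (hq : q.1 < q.2) :
    kalaiMatrix n s G e (col hn i q) = Pool.Agent.TH173.KR.ent e.1 i q := by
  unfold col
  rw [dif_pos hq]
  rfl

theorem ranks (n s : ℕ) (G : Finset (Finset (Fin n))) (r : Fin n → Fin n → ℕ)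
    (hsym : ∀ x y, r x y = r y x) :
    ∑ x : Fin n, ∑ y ∈ univ.filter (fun y => x < y), min s (tops G r x y).card ≤
      (kalaiMatrix n s G).rank := by
  rcases Nat.lt_or_ge 1 n with hn | hn
  · refine Pool.Agent.TH173.KR.rank_pairs G (kalaiMatrix n s G) (col hn)
      (fun e i q hq => kalai_ent hn G e i q hq) r hsym (tops G r) ?_
    intro x y w hw
    exact (mem_filter.1 hw).2
  · have : ∑ x : Fin n, ∑ y ∈ univ.filter (fun y => x < y), min s (tops G r x y).card = 0 := by
      apply sum_eq_zero
      intro x _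
      apply sum_eq_zero
      intro y hy
      have := (mem_filter.1 hy).2
      rw [Fin.lt_def] at this
      have := x.2
      have := y.2
      omega
    rw [this]
    exact Nat.zero_le _

theorem sym3 {n : ℕ} (G : Finset (Finset (Fin n))) : Sym3 (EE G) := by
  refine ⟨fun x y z h => ?_, fun x y z h => ?_⟩
  · unfold EE at *
    rwa [insert_comm]
  · unfold EE at *
    have : ({y, z, x} : Finset (Fin n)) = {x, y, z} := by
      ext t
      simp only [mem_insert, mem_singleton]
      tauto
    rwa [this]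

theorem cov {n : ℕ} {G : Finset (Finset (Fin n))} (h3 : ∀ e ∈ G, e.card = 3)
    (hG : ∀ S : Finset (Fin n), S.card = 4 → ∃ e ∈ G, e ⊆ S) : Cov (EE G) univ := by
  intro a _ b _ c _ d _ hab hac had hbc hbd hcd
  have h4 : ({a, b, c, d} : Finset (Fin n)).card = 4 := by
    rw [card_insert_of_notMem, card_insert_of_notMem, card_pair hcd]
    · simp [hbc, hbd]
    · simp [hab, hac, had]
  obtain ⟨e, he, hes⟩ := hG _ h4
  have h5 : (({a, b, c, d} : Finset (Fin n)) \ e).card = 1 := by
    rw [card_sdiff_of_subset hes, h4, h3 e he]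
  obtain ⟨t, ht⟩ := card_eq_one.1 h5
  have h6 : e = ({a, b, c, d} : Finset (Fin n)).erase t := by
    rw [erase_eq, ← ht, Finset.sdiff_sdiff_eq_self hes]
  have htm : t ∈ ({a, b, c, d} : Finset (Fin n)) := by
    have : t ∈ (({a, b, c, d} : Finset (Fin n)) \ e) := by rw [ht]; simp
    exact (mem_sdiff.1 this).1
  simp only [mem_insert, mem_singleton] at htm
  unfold EE
  rcases htm with rfl | rfl | rfl | rfl
  · right; right; right
    have : ({b, c, d} : Finset (Fin n)) = e := by
      rw [h6]
      ext x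
      simp only [mem_insert, mem_singleton, mem_erase]
      constructor
      · rintro (rfl | rfl | rfl)
        · exact ⟨Ne.symm hab, by tauto⟩
        · exact ⟨Ne.symm hac, by tauto⟩
        · exact ⟨Ne.symm had, by tauto⟩
      · tauto
    rw [this]; exact he
  · right; right; left
    have : ({a, c, d} : Finset (Fin n)) = e := by
      rw [h6]
      ext x
      simp only [mem_insert, mem_singleton, mem_erase]
      constructor
      · rintro (rfl | rfl | rfl)
        · exact ⟨hab, by tauto⟩
        · exact ⟨Ne.symm hbc, by tauto⟩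
        · exact ⟨Ne.symm hbd, by tauto⟩
      · tauto
    rw [this]; exact he
  · right; left
    have : ({a, b, d} : Finset (Fin n)) = e := by
      rw [h6]
      ext x
      simp only [mem_insert, mem_singleton, mem_erase]
      constructor
      · rintro (rfl | rfl | rfl)
        · exact ⟨hac, by tauto⟩
        · exact ⟨hbc, by tauto⟩
        · exact ⟨Ne.symm hcd, by tauto⟩
      · tauto
    rw [this]; exact he
  · left
    have : ({a, b, c} : Finset (Fin n)) = e := by
      rw [h6]
      ext x
      simp only [mem_insert, mem_singleton, mem_erase]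
      constructor
      · rintro (rfl | rfl | rfl)
        · exact ⟨had, by tauto⟩
        · exact ⟨hbd, by tauto⟩
        · exact ⟨hcd, by tauto⟩
      · tauto
    rw [this]; exact he

theorem rank_ge (n s : ℕ) (G : Finset (Finset (Fin n))) (I : Finset (Fin n × Fin n))
    (hp : Perc (EE G) univ s I) : s * n.choose 2 ≤ (kalaiMatrix n s G).rank + s * I.card := by
  obtain ⟨r, hsym, h⟩ := STAGE.stage n s G I hp
  exact h.trans (Nat.add_le_add_right (ranks n s G r hsym) _)

theorem one_ge {n : ℕ} (hn : 2 ≤ n) {G : Finset (Finset (Fin n))} (h3 : ∀ e ∈ G, e.card = 3)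
    (hG : ∀ S : Finset (Fin n), S.card = 4 → ∃ e ∈ G, e ⊆ S) :
    n.choose 2 ≤ (kalaiMatrix n 1 G).rank + (2 * n - 3) := by
  obtain ⟨I, hI, hp⟩ := ONE.one (Fin n) inferInstance (EE G) univ (sym3 G) (cov h3 hG)
    (by rw [card_univ, Fintype.card_fin]; exact hn)
  have := rank_ge n 1 G I hp
  rw [card_univ, Fintype.card_fin] at hI
  omega

end Pool.Agent.H70.KK.Rank
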