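import Mathlib

set_option autoImplicit false
open Finset

namespace Pool.Agent.H70.KK

/-- `E` is a symmetric ternary relation. -/
structure Sym3 {α : Type} (E : α → α → α → Prop) : Prop where
  swap : ∀ x y z, E x y z → E y x z
  rot : ∀ x y z, E x y z → E y z x

/-- every four distinct vertices of `V` contain an edge -/
def Cov {α : Type} (E : α → α → α → Prop) (V : Finset α) : Prop :=
  ∀ a ∈ V, ∀ b ∈ V, ∀ c ∈ V, ∀ d ∈ V, a ≠ b → a ≠ c → a ≠ d → b ≠ c → b ≠ d → c ≠ d →
    E a b c ∨ E a b d ∨ E a c d ∨ E b c d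

/-- `F` is symmetric and closed: a pair of `V` with `s` tops is in `F` -/
def CL {α : Type} (E : α → α → α → Prop) (V : Finset α) (s : ℕ) (F : α → α → Prop) : Prop :=
  (∀ x y, F x y → F y x) ∧
  ∀ x ∈ V, ∀ y ∈ V, x ≠ y → ∀ W : Finset α, W ⊆ V → s ≤ W.card →
    (∀ w ∈ W, w ≠ x ∧ w ≠ y ∧ E x y w ∧ F w x ∧ F w y) → F x y

/-- every closed `F` which contains `I` contains all pairs of `V` -/
def Perc {α : Type} (E : α → α → α → Prop) (V : Finset α) (s : ℕ) (I : Finset (α × α)) : Prop :=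
  ∀ F : α → α → Prop, CL E V s F → (∀ p ∈ I, F p.1 p.2) → ∀ x ∈ V, ∀ y ∈ V, x ≠ y → F x y

/-- `P` is closed in the link of `v`: the vertices outside `P` have less than `s` neighbours in `P` -/
def LC {α : Type} [DecidableEq α] (E : α → α → α → Prop) (V : Finset α) (s : ℕ) (v : α) (P : Finset α) : Prop :=
  P ⊆ V.erase v ∧ ∀ y ∈ V.erase v, y ∉ P → ∀ W : Finset α, W ⊆ P → (∀ w ∈ W, E v w y) → W.card < s

/-- `A` percolates in the link of `v` -/
def LPerc {α : Type} [DecidableEq α] (E : α → α → α → Prop) (V : Finset α) (s : ℕ) (v : α) (A : Finset α) : Prop :=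
  ∀ P : Finset α, LC E V s v P → A ⊆ P → P = V.erase v

/-- `v` is hard: no set of at most `K` vertices percolates in its link -/
def Hard {α : Type} [DecidableEq α] (E : α → α → α → Prop) (V : Finset α) (s K : ℕ) (v : α) : Prop :=
  v ∈ V ∧ ∀ A : Finset α, A ⊆ V.erase v → A.card ≤ K → ¬ LPerc E V s v A

/-- a hard vertex gives seeds which fill all pairs at `v` and all pairs outside the link of `v` -/
def S_HARD : Prop := ∀ (α : Type) (_ : DecidableEq α) (E : α → α → α → Prop) (V : Finset α) (s : ℕ) (v : α),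
  Sym3 E → Cov E V → 1 ≤ s → Hard E V s (9 * s) v →
    ∃ I : Finset (α × α), I.card ≤ 16 * s * V.card ∧ ∀ F : α → α → Prop, CL E V s F → (∀ p ∈ I, F p.1 p.2) →
      (∀ x ∈ V.erase v, F v x) ∧ ∀ x ∈ V.erase v, ∀ y ∈ V.erase v, x ≠ y → ¬ E v x y → F x y

/-- seeds for all 3-graphs which meet every 4-set -/
def S_MAIN : Prop := ∀ (α : Type) (_ : DecidableEq α) (E : α → α → α → Prop) (V : Finset α) (s : ℕ),
  Sym3 E → Cov E V → 1 ≤ s → ∃ I : Finset (α × α), I.card ≤ 16 * s ^ 2 * V.card ∧ Perc E V s I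

/-- `s = 1`, exact -/
def S_ONE : Prop := ∀ (α : Type) (_ : DecidableEq α) (E : α → α → α → Prop) (V : Finset α),
  Sym3 E → Cov E V → 2 ≤ V.card → ∃ I : Finset (α × α), I.card ≤ 2 * V.card - 3 ∧ Perc E V 1 I

/-- the relation of a 3-graph -/
def EE {n : ℕ} (G : Finset (Finset (Fin n))) (x y z : Fin n) : Prop := ({x, y, z} : Finset (Fin n)) ∈ G

/-- the vertices `w` for which `{x, w, y}` is an edge of `G` and `r x w`, `r w y` are less than `r x y` -/
def tops {n : ℕ} (G : Finset (Finset (Fin n))) (r : Fin n → Fin n → ℕ) (x y : Fin n) : Finset (Fin n) :=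
  univ.filter fun w => w ≠ x ∧ w ≠ y ∧ ({x, w, y} : Finset (Fin n)) ∈ G ∧ r x w < r x y ∧ r w y < r x y

/-- from seeds to a function of pairs -/
def S_STAGE : Prop := ∀ (n s : ℕ) (G : Finset (Finset (Fin n))) (I : Finset (Fin n × Fin n)),
  Perc (EE G) univ s I → ∃ r : Fin n → Fin n → ℕ, (∀ x y, r x y = r y x) ∧
    s * n.choose 2 ≤ (∑ x : Fin n, ∑ y ∈ univ.filter (fun y => x < y), min s (tops G r x y).card) + s * I.card

end Pool.Agent.H70.KK
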