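import Pool.Agent.H70.KK.Stm

set_option autoImplicit false
open Finset

namespace Pool.Agent.H70.KK

/-- the structure of a hard vertex `v`: three sets `C 0, C 1, C 2` of `6 s` vertices and an exceptional set `X` such that
two vertices `x, y` outside `X` which are not adjacent in the link of `v` have `4 s` common edges into one of the sets -/
def Core {α : Type} [DecidableEq α] (E : α → α → α → Prop) (V : Finset α) (s : ℕ) (v : α)
    (C : Fin 3 → Finset α) (X : Finset α) : Prop :=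
  (∀ l, C l ⊆ V.erase v) ∧ (∀ l, (C l).card = 6 * s) ∧ X.card ≤ 12 * s ∧
  ∀ x ∈ V.erase v, ∀ y ∈ V.erase v, x ≠ y → x ∉ X → y ∉ X → ¬ E v x y →
    ∃ l : Fin 3, ∃ W : Finset α, W ⊆ C l ∧ 4 * s ≤ W.card ∧ ∀ w ∈ W, w ≠ x ∧ w ≠ y ∧ E x y w

/-- hard vertices have cores -/
def S_CORE : Prop := ∀ (α : Type) (_ : DecidableEq α) (E : α → α → α → Prop) (V : Finset α) (s : ℕ) (v : α),
  Sym3 E → Cov E V → 1 ≤ s → Hard E V s (304 * s) v → ∃ C X, Core E V s v C X

/-- many vertices with cores give an easy vertex -/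
def S_AVG : Prop := ∀ (α : Type) (_ : DecidableEq α) (E : α → α → α → Prop) (V : Finset α) (s : ℕ) (H : Finset α)
  (C : α → Fin 3 → Finset α) (X : α → Finset α),
  Sym3 E → 1 ≤ s → 304 * s ≤ V.card → H ⊆ V → H.card = 22 * s → (∀ v ∈ H, Core E V s v (C v) (X v)) →
    ∃ z ∈ V, ∃ A : Finset α, A ⊆ V.erase z ∧ A.card ≤ 304 * s ∧ LPerc E V s z A

/-- seeds for all 3-graphs which meet every 4-set, linear in `s` -/
def S_MAIN2 : Prop := ∀ (α : Type) (_ : DecidableEq α) (E : α → α → α → Prop) (V : Finset α) (s : ℕ),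
  Sym3 E → Cov E V → 1 ≤ s → ∃ I : Finset (α × α), I.card ≤ 304 * s * V.card ∧ Perc E V s I

end Pool.Agent.H70.KK
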